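import Mathlib
import Pool.Agent.MP_0bb195_co.d3.Main

namespace Pool.Agent.Results.MP_0bb195_co.Generic

open Pool.Agent.MP_0bb195_co

/-- For all `g` and `κ ≥ 1`, the pure `κ`-sparse gapsets of genus `g` and depth at most three
(every gap is below three times every positive non-gap) inject into those of genus `g + 1`. -/
theorem result (g κ : ℕ) (hκ : 1 ≤ κ) :
    ∃ f : {G // G ∈ pureSparse κ g ∧ ∀ x ∈ G, ∀ m, 0 < m → m ∉ G → x < 3 * m} →
        {G // G ∈ pureSparse κ (g + 1) ∧ ∀ x ∈ G, ∀ m, 0 < m → m ∉ G → x < 3 * m},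
      Function.Injective f :=
  D3.main hκ

end Pool.Agent.Results.MP_0bb195_co.Generic
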