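import Mathlib
import Pool.Agent.MP_0bb195_co.Mid

namespace Pool.Agent.Results.MP_0bb195_co.LargeGenus

open Pool.Agent.MP_0bb195_co

/-- There is `g0` such that, for every `g ≥ g0` and every `κ ≥ 1`, the pure `κ`-sparse gapsets of
genus `g` inject into those of genus `g + 1`. -/
theorem result : ∃ g0 : ℕ, ∀ g κ : ℕ, g0 ≤ g → 1 ≤ κ →
    ∃ f : pureSparse κ g → pureSparse κ (g + 1), Function.Injective f := by
  obtain ⟨g0, hC, h⟩ := Gap.main_all
  exact ⟨g0, fun g κ hg hκ => Gap.exists_inj (by omega) (h κ g hκ hg)⟩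

end Pool.Agent.Results.MP_0bb195_co.LargeGenus
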