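import Mathlib
import Pool.Agent.MP_0bb195_co.sp.Main

namespace Pool.Agent.Results.MP_0bb195_co.SparseAll

open Pool.Agent.MP_0bb195_co

/-- For every `g`, the pure `2`-sparse gapsets of genus `g` inject into those of genus `g + 1`. -/
theorem result (g : ℕ) :
    ∃ f : pureSparse 2 g → pureSparse 2 (g + 1), Function.Injective f := by
  by_cases hg : 2 ≤ g
  · exact Gap.exists_inj hg (Sp.main hg)
  · have key : ∀ G, G ∉ pureSparse 2 g := by
      rintro G ⟨-, h2, ⟨-, a, b, hab, -⟩ | h3 | h3⟩
      · have := Finset.one_lt_card.2 ⟨a, hab.1, b, hab.2.1, hab.2.2.1.ne⟩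
        omega
      · omega
      · omega
    exact ⟨fun G => absurd G.2 (key G.1), fun G => absurd G.2 (key G.1)⟩

end Pool.Agent.Results.MP_0bb195_co.SparseAll
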